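import Pool.Agent.N728.QL.Def

set_option autoImplicit false

/-! # Project QL, part ORB: the orbit argument -/

namespace Pool.Agent.N426.QL

open Finset Pool.Agent.N728.QL

noncomputable section

/-! ### arithmetic -/

theorem rg_nat {w y n : ℕ} : Rg w y (n : ℤ) ↔ ∀ p : ℕ, p.Prime → w < p → p ≤ y → ¬ p ∣ n := by
  unfold Rg
  simp only [Int.natCast_dvd_natCast]

theorem PP_ne (w y : ℕ) : PP w y ≠ 0 := by
  unfold PP
  exact Finset.prod_ne_zero_iff.2 fun p hp => (Finset.mem_filter.1 hp).2.ne_zero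

theorem PP_primes (w y : ℕ) : (PP w y).primeFactors = (Ioc w y).filter Nat.Prime := by
  unfold PP
  exact Nat.primeFactors_prod fun p hp => (Finset.mem_filter.1 hp).2

theorem sqf_prod (s : Finset ℕ) (hs : ∀ p ∈ s, p.Prime) : Squarefree (∏ p ∈ s, p) := by
  classical
  induction s using Finset.induction_on with
  | empty => simp
  | insert a s ha ih =>
    rw [Finset.prod_insert ha]
    have h1 : a.Prime := hs a (Finset.mem_insert_self _ _)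
    have h2 := ih fun p hp => hs p (Finset.mem_insert_of_mem hp)
    have h3 : Nat.Coprime a (∏ p ∈ s, p) := by
      apply Nat.Coprime.prod_right
      intro p hp
      have hpp := hs p (Finset.mem_insert_of_mem hp)
      exact (Nat.coprime_primes h1 hpp).2 fun h => ha (h ▸ hp)
    exact (Nat.squarefree_mul h3).2 ⟨h1.prime.squarefree, h2⟩

theorem PP_sqf (w y : ℕ) : Squarefree (PP w y) :=
  sqf_prod _ fun p hp => (Finset.mem_filter.1 hp).2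

theorem dvd_PP_prime {w y M p : ℕ} (hM : M ∣ PP w y) (hp : p.Prime) (h : p ∣ M) :
    w < p ∧ p ≤ y := by
  have h1 : p ∈ (PP w y).primeFactors :=
    Nat.mem_primeFactors.2 ⟨hp, h.trans hM, PP_ne w y⟩
  rw [PP_primes] at h1
  exact Finset.mem_Ioc.1 (Finset.mem_filter.1 h1).1

theorem pp_mul {w y M z : ℕ} (hM : M ∣ PP w y) (hz : z ≠ 0) (hr : Rg w y (z : ℤ)) :
    pp w y (M * z) = M := by
  have hM0 : M ≠ 0 := fun h => PP_ne w y (Nat.eq_zero_of_zero_dvd (h ▸ hM))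
  have hs : Squarefree M := (PP_sqf w y).squarefree_of_dvd hM
  unfold pp
  have e : (M * z).primeFactors.filter (fun p => w < p ∧ p ≤ y) = M.primeFactors := by
    ext p
    rw [Finset.mem_filter, Nat.mem_primeFactors, Nat.mem_primeFactors]
    constructor
    · rintro ⟨⟨hp, hd, -⟩, h1, h2⟩
      rcases (hp.dvd_mul).1 hd with h | h
      · exact ⟨hp, h, hM0⟩
      · exact absurd h (rg_nat.1 hr p hp h1 h2)
    · rintro ⟨hp, hd, -⟩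
      exact ⟨⟨hp, hd.mul_right z, mul_ne_zero hM0 hz⟩, dvd_PP_prime hM hp hd⟩
  rw [e]
  exact Nat.prod_primeFactors_of_squarefree hs

theorem pp_pos (w y n : ℕ) : 0 < pp w y n := by
  unfold pp
  exact Finset.prod_pos fun p hp => (Nat.prime_of_mem_primeFactors (Finset.mem_filter.1 hp).1).pos

theorem pp_dvd_PP (w y n : ℕ) : pp w y n ∣ PP w y := by
  unfold pp PP
  apply Finset.prod_dvd_prod_of_subset
  intro p hp
  have h := Finset.mem_filter.1 hp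
  exact Finset.mem_filter.2 ⟨Finset.mem_Ioc.2 h.2, Nat.prime_of_mem_primeFactors h.1⟩

theorem pp_dvd (w y n : ℕ) : pp w y n ∣ n := by
  have h : pp w y n ∣ ∏ p ∈ n.primeFactors, p := by
    unfold pp
    exact Finset.prod_dvd_prod_of_subset _ _ _ (Finset.filter_subset _ _)
  exact h.trans (Nat.prod_primeFactors_dvd n)

theorem prime_dvd_pp {w y n p : ℕ} (hn : n ≠ 0) (hp : p.Prime) (h1 : w < p) (h2 : p ≤ y)
    (hd : p ∣ n) : p ∣ pp w y n := by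
  unfold pp
  exact Finset.dvd_prod_of_mem _
    (Finset.mem_filter.2 ⟨Nat.mem_primeFactors.2 ⟨hp, hd, hn⟩, h1, h2⟩)

theorem pp_mono_dvd {w y u v : ℕ} (hu : u ≠ 0) (hv : v ≠ 0) : pp w y u ∣ pp w y (u * v) := by
  unfold pp
  apply Finset.prod_dvd_prod_of_subset
  intro p hp
  have h := Finset.mem_filter.1 hp
  have h1 := Nat.mem_primeFactors.1 h.1
  exact Finset.mem_filter.2 ⟨Nat.mem_primeFactors.2 ⟨h1.1, h1.2.1.mul_right v,
    mul_ne_zero hu hv⟩, h.2⟩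

/-- the cofactor divides `v` -/
theorem cof_dvd {w y u v : ℕ} (hu : u ≠ 0) (hv : v ≠ 0) :
    pp w y (u * v) / pp w y u ∣ v := by
  obtain ⟨c, hc⟩ := pp_mono_dvd (w := w) (y := y) hu hv
  have hm0 : pp w y u ≠ 0 := (pp_pos w y u).ne'
  have hM0 : pp w y (u * v) ≠ 0 := (pp_pos w y _).ne'
  have h1 : pp w y (u * v) / pp w y u = c := by
    rw [hc, Nat.mul_div_cancel_left _ (pp_pos w y u)]
  rw [h1]
  have hsM : Squarefree (pp w y (u * v)) := (PP_sqf w y).squarefree_of_dvd (pp_dvd_PP w y _)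
  have hsc : Squarefree c := hsM.squarefree_of_dvd ⟨_, by rw [hc, mul_comm]⟩
  have hc0 : c ≠ 0 := hsc.ne_zero
  rw [← Nat.prod_primeFactors_of_squarefree hsc]
  refine (Finset.prod_dvd_prod_of_subset _ v.primeFactors _ ?_).trans
    (Nat.prod_primeFactors_dvd v)
  intro p hp
  obtain ⟨hpp, hpc, -⟩ := Nat.mem_primeFactors.1 hp
  have hpM : p ∣ pp w y (u * v) := by rw [hc]; exact hpc.mul_left _
  have hwy := dvd_PP_prime (pp_dvd_PP w y _) hpp hpM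
  have hpuv : p ∣ u * v := hpM.trans (pp_dvd w y _)
  rcases (hpp.dvd_mul).1 hpuv with h | h
  · exfalso
    -- p divides m and c
    have h2 : p ∣ pp w y u := prime_dvd_pp hu hpp hwy.1 hwy.2 h
    have h3 : p * p ∣ pp w y (u * v) := by
      rw [hc]
      exact mul_dvd_mul h2 hpc
    exact hpp.one_lt.ne' (Nat.isUnit_iff.1 (hsM p h3))
  · exact Nat.mem_primeFactors.2 ⟨hpp, h, hv⟩

/-! ### windows -/

theorem jw_le {ρ : ℝ} (hρ : 1 < ρ) {m : ℕ} (hm : 0 < m) : ρ ^ (jw ρ m) ≤ m := by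
  have hl : 0 < Real.log ρ := Real.log_pos hρ
  have hm' : (0 : ℝ) < m := by exact_mod_cast hm
  have h0 : 0 ≤ Real.log m / Real.log ρ := by
    apply div_nonneg (Real.log_nonneg _) hl.le
    exact_mod_cast hm
  have h1 : (jw ρ m : ℝ) ≤ Real.log m / Real.log ρ := Nat.floor_le h0
  rw [le_div_iff₀ hl] at h1
  have h2 : Real.log (ρ ^ (jw ρ m)) ≤ Real.log m := by
    rw [Real.log_pow]; exact h1
  exact (Real.log_le_log_iff (by positivity) hm').1 h2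

theorem lt_jw {ρ : ℝ} (hρ : 1 < ρ) {m : ℕ} (hm : 0 < m) : (m : ℝ) < ρ ^ (jw ρ m + 1) := by
  have hl : 0 < Real.log ρ := Real.log_pos hρ
  have hm' : (0 : ℝ) < m := by exact_mod_cast hm
  have h1 : Real.log m / Real.log ρ < (jw ρ m : ℝ) + 1 := Nat.lt_floor_add_one _
  rw [div_lt_iff₀ hl] at h1
  have h2 : Real.log m < Real.log (ρ ^ (jw ρ m + 1)) := by
    rw [Real.log_pow]
    push_cast
    exact h1
  exact (Real.log_lt_log_iff hm' (by positivity)).1 h2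

/-! ### the sum over the orbits -/

/-- one term -/
def FF (φ : ℕ → ℕ → ℝ) (E : ℕ → ℝ) (w y M x t m : ℕ) : ℝ :=
  rg w y x * rg w y t * φ (m * x) (M / m * t) * E (M * x * t)

/-- the sum over the orbits -/
def SS (φ : ℕ → ℕ → ℝ) (E : ℕ → ℝ) (w y : ℕ) (ρ : ℝ) (T Y M0 : ℕ) : ℝ :=
  ∑ M ∈ (PP w y).divisors.filter (fun M => M ≤ M0), ∑ j ∈ Wn ρ M,
    ∑ x ∈ Icc 1 ⌊(T : ℝ) / ρ ^ (j + 1)⌋₊, ∑ t ∈ Icc 1 ⌊(Y : ℝ) * ρ ^ (j + 1) / M⌋₊,
      ∑ m ∈ Dv ρ M j, FF φ E w y M x t m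

theorem rg_nonneg (w y : ℕ) (n : ℤ) : 0 ≤ rg w y n := by
  unfold rg
  split_ifs <;> norm_num

/-- Cauchy-Schwarz for weighted sums, in the form that can be iterated -/
theorem cs_iter {ι : Type*} (s : Finset ι) (f A D : ι → ℝ) (hA : ∀ i ∈ s, 0 ≤ A i)
    (hD : ∀ i ∈ s, 0 ≤ D i) (h : ∀ i ∈ s, |f i| ≤ √(A i) * √(D i)) :
    |∑ i ∈ s, f i| ≤ √(∑ i ∈ s, A i) * √(∑ i ∈ s, D i) := by
  classical
  refine (Finset.abs_sum_le_sum_abs _ _).trans ?_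
  refine (Finset.sum_le_sum h).trans ?_
  have e1 : ∀ i ∈ s, √(A i) * √(D i) = √(max (A i) 0) * √(max (D i) 0) := by
    intro i hi
    rw [max_eq_left (hA i hi), max_eq_left (hD i hi)]
  rw [Finset.sum_congr rfl e1]
  have e2 : ∑ i ∈ s, A i = ∑ i ∈ s, max (A i) 0 :=
    Finset.sum_congr rfl fun i hi => (max_eq_left (hA i hi)).symm
  have e3 : ∑ i ∈ s, D i = ∑ i ∈ s, max (D i) 0 :=
    Finset.sum_congr rfl fun i hi => (max_eq_left (hD i hi)).symm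
  rw [e2, e3]
  exact Real.sum_sqrt_mul_sqrt_le s (fun i => le_max_right _ _) (fun i => le_max_right _ _)

theorem term_cs {a b c : ℝ} (hb : 0 ≤ b) (h : |a| ≤ b * |c|) : |a| ≤ √b * √(b * c ^ 2) := by
  rw [Real.sqrt_mul hb, Real.sqrt_sq_eq_abs, ← mul_assoc, Real.mul_self_sqrt hb]
  exact h

theorem claim1 (T Y w y M0 : ℕ) (ρ : ℝ) (φ : ℕ → ℕ → ℝ) (E N : ℕ → ℝ)
    (hE : ∀ n, |E n| ≤ N n) :
    |SS φ E w y ρ T Y M0| ≤
    √(∑ M ∈ (PP w y).divisors.filter (fun M => M ≤ M0), ∑ j ∈ Wn ρ M, AA N w y ρ T Y M j) *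
    √(∑ M ∈ (PP w y).divisors.filter (fun M => M ≤ M0), ∑ j ∈ Wn ρ M, DD φ N w y ρ T Y M j) := by
  have hN : ∀ n, 0 ≤ N n := fun n => (abs_nonneg _).trans (hE n)
  have hb : ∀ (M x t : ℕ), 0 ≤ rg w y x * rg w y t * N (M * x * t) := fun M x t =>
    mul_nonneg (mul_nonneg (rg_nonneg _ _ _) (rg_nonneg _ _ _)) (hN _)
  have hd : ∀ (M j x t : ℕ), 0 ≤ rg w y x * rg w y t * N (M * x * t) *
      (∑ m ∈ Dv ρ M j, φ (m * x) (M / m * t)) ^ 2 := fun M j x t =>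
    mul_nonneg (hb M x t) (sq_nonneg _)
  have hA : ∀ M j, 0 ≤ AA N w y ρ T Y M j := fun M j =>
    Finset.sum_nonneg fun x _ => Finset.sum_nonneg fun t _ => hb M x t
  have hD : ∀ M j, 0 ≤ DD φ N w y ρ T Y M j := fun M j =>
    Finset.sum_nonneg fun x _ => Finset.sum_nonneg fun t _ => hd M j x t
  unfold SS
  refine cs_iter _ _ _ _ (fun M _ => Finset.sum_nonneg fun j _ => hA M j)
    (fun M _ => Finset.sum_nonneg fun j _ => hD M j) fun M _ => ?_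
  refine cs_iter _ _ _ _ (fun j _ => hA M j) (fun j _ => hD M j) fun j _ => ?_
  unfold AA DD
  refine cs_iter _ _ _ _ (fun x _ => Finset.sum_nonneg fun t _ => hb M x t)
    (fun x _ => Finset.sum_nonneg fun t _ => hd M j x t) fun x _ => ?_
  refine cs_iter _ _ _ _ (fun t _ => hb M x t) (fun t _ => hd M j x t) fun t _ => ?_
  refine term_cs (hb M x t) ?_
  have e : ∑ m ∈ Dv ρ M j, FF φ E w y M x t m =
      (rg w y x * rg w y t * (∑ m ∈ Dv ρ M j, φ (m * x) (M / m * t))) * E (M * x * t) := by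
    rw [Finset.mul_sum, Finset.sum_mul]
    rfl
  rw [e, abs_mul, abs_mul, abs_mul, abs_of_nonneg (rg_nonneg w y x), abs_of_nonneg (rg_nonneg w y t)]
  have h1 : 0 ≤ rg w y x * rg w y t * |∑ m ∈ Dv ρ M j, φ (m * x) (M / m * t)| :=
    mul_nonneg (mul_nonneg (rg_nonneg _ _ _) (rg_nonneg _ _ _)) (abs_nonneg _)
  calc rg w y x * rg w y t * |∑ m ∈ Dv ρ M j, φ (m * x) (M / m * t)| * |E (M * x * t)|
      ≤ rg w y x * rg w y t * |∑ m ∈ Dv ρ M j, φ (m * x) (M / m * t)| * N (M * x * t) :=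
        mul_le_mul_of_nonneg_left (hE _) h1
    _ = _ := by ring

/-- the flat index set -/
def KK (w y : ℕ) (ρ : ℝ) (T Y M0 : ℕ) : Finset (Σ _ : ℕ, Σ _ : ℕ, ℕ × ℕ) :=
  ((PP w y).divisors.filter (fun M => M ≤ M0)).sigma fun M => M.divisors.sigma fun m =>
    Icc 1 ⌊(T : ℝ) / ρ ^ (jw ρ m + 1)⌋₊ ×ˢ Icc 1 ⌊(Y : ℝ) * ρ ^ (jw ρ m + 1) / M⌋₊

theorem SS_flat (φ : ℕ → ℕ → ℝ) (E : ℕ → ℝ) (w y : ℕ) (ρ : ℝ) (T Y M0 : ℕ) :
    SS φ E w y ρ T Y M0 =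
      ∑ k ∈ KK w y ρ T Y M0, FF φ E w y k.1 k.2.2.1 k.2.2.2 k.2.1 := by
  unfold SS KK
  rw [Finset.sum_sigma]
  refine Finset.sum_congr rfl fun M _ => ?_
  rw [Finset.sum_sigma]
  have h1 : ∀ j ∈ Wn ρ M, (∑ x ∈ Icc 1 ⌊(T : ℝ) / ρ ^ (j + 1)⌋₊,
      ∑ t ∈ Icc 1 ⌊(Y : ℝ) * ρ ^ (j + 1) / M⌋₊, ∑ m ∈ Dv ρ M j, FF φ E w y M x t m) =
      ∑ m ∈ M.divisors with jw ρ m = j, ∑ p ∈ Icc 1 ⌊(T : ℝ) / ρ ^ (jw ρ m + 1)⌋₊ ×ˢ
        Icc 1 ⌊(Y : ℝ) * ρ ^ (jw ρ m + 1) / M⌋₊, FF φ E w y M p.1 p.2 m := by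
    intro j _
    have h2 : ∀ x ∈ Icc 1 ⌊(T : ℝ) / ρ ^ (j + 1)⌋₊,
        (∑ t ∈ Icc 1 ⌊(Y : ℝ) * ρ ^ (j + 1) / M⌋₊, ∑ m ∈ Dv ρ M j, FF φ E w y M x t m) =
        ∑ m ∈ Dv ρ M j, ∑ t ∈ Icc 1 ⌊(Y : ℝ) * ρ ^ (j + 1) / M⌋₊, FF φ E w y M x t m :=
      fun x _ => Finset.sum_comm
    rw [Finset.sum_congr rfl h2, Finset.sum_comm]
    refine Finset.sum_congr rfl fun m hm => ?_
    have h3 : jw ρ m = j := (Finset.mem_filter.1 hm).2
    rw [Finset.sum_product, h3]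
  rw [Finset.sum_congr rfl h1]
  unfold Wn
  rw [Finset.sum_fiberwise_of_maps_to (fun m hm => Finset.mem_image_of_mem _ hm)]

/-- the map to the pairs -/
def gg (k : Σ _ : ℕ, Σ _ : ℕ, ℕ × ℕ) : ℕ × ℕ := (k.2.1 * k.2.2.1, k.1 / k.2.1 * k.2.2.2)

/-- the restricted index set -/
def GK (w y : ℕ) (Y : ℕ) (k : Σ _ : ℕ, Σ _ : ℕ, ℕ × ℕ) : Prop :=
  Rg w y (k.2.2.1 : ℤ) ∧ Rg w y (k.2.2.2 : ℤ) ∧ k.1 / k.2.1 * k.2.2.2 ≤ Y

theorem gg_mul {M m x t : ℕ} (h : m ∣ M) : m * x * (M / m * t) = M * x * t := by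
  obtain ⟨c, hc⟩ := h
  rcases Nat.eq_zero_or_pos m with h0 | h0
  · subst h0
    simp at hc
    simp [hc]
  · rw [hc, Nat.mul_div_cancel_left _ h0]
    ring

theorem mem_KK {w y : ℕ} {ρ : ℝ} {T Y M0 : ℕ} {k : Σ _ : ℕ, Σ _ : ℕ, ℕ × ℕ} :
    k ∈ KK w y ρ T Y M0 ↔ (k.1 ∣ PP w y ∧ k.1 ≤ M0) ∧ k.2.1 ∣ k.1 ∧
      (1 ≤ k.2.2.1 ∧ k.2.2.1 ≤ ⌊(T : ℝ) / ρ ^ (jw ρ k.2.1 + 1)⌋₊) ∧
      (1 ≤ k.2.2.2 ∧ k.2.2.2 ≤ ⌊(Y : ℝ) * ρ ^ (jw ρ k.2.1 + 1) / k.1⌋₊) := by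
  unfold KK
  rw [Finset.mem_sigma, Finset.mem_sigma, Finset.mem_filter, Nat.mem_divisors, Nat.mem_divisors,
    Finset.mem_product, Finset.mem_Icc, Finset.mem_Icc]
  have h0 := PP_ne w y
  constructor
  · rintro ⟨⟨⟨h1, -⟩, h2⟩, ⟨h3, -⟩, h4, h5⟩
    exact ⟨⟨h1, h2⟩, h3, h4, h5⟩
  · rintro ⟨⟨h1, h2⟩, h3, h4, h5⟩
    exact ⟨⟨⟨h1, h0⟩, h2⟩, ⟨h3, fun h => h0 (Nat.eq_zero_of_zero_dvd (h ▸ h1))⟩, h4, h5⟩

theorem mx_le {ρ : ℝ} (hρ : 1 < ρ) {T m x : ℕ} (hm : 0 < m)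
    (h : x ≤ ⌊(T : ℝ) / ρ ^ (jw ρ m + 1)⌋₊) : m * x ≤ T := by
  have hp : (0 : ℝ) < ρ ^ (jw ρ m + 1) := by positivity
  have h1 : (x : ℝ) ≤ (T : ℝ) / ρ ^ (jw ρ m + 1) := by
    have := Nat.floor_le (show (0 : ℝ) ≤ (T : ℝ) / ρ ^ (jw ρ m + 1) by positivity)
    have h2 : (x : ℝ) ≤ (⌊(T : ℝ) / ρ ^ (jw ρ m + 1)⌋₊ : ℝ) := by exact_mod_cast h
    exact h2.trans this
  rw [le_div_iff₀ hp] at h1
  have h2 := lt_jw hρ hm
  have h3 : (m : ℝ) * x ≤ T := by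
    calc (m : ℝ) * x ≤ ρ ^ (jw ρ m + 1) * x := by
          apply mul_le_mul_of_nonneg_right h2.le (Nat.cast_nonneg _)
      _ = x * ρ ^ (jw ρ m + 1) := mul_comm _ _
      _ ≤ T := h1
  exact_mod_cast h3

theorem pos_of_dvd_PP {w y M : ℕ} (h : M ∣ PP w y) : 0 < M :=
  Nat.pos_of_ne_zero fun h0 => PP_ne w y (Nat.eq_zero_of_zero_dvd (h0 ▸ h))

/-- the injectivity -/
theorem gg_inj {w y : ℕ} {ρ : ℝ} {T Y M0 : ℕ} {k k' : Σ _ : ℕ, Σ _ : ℕ, ℕ × ℕ}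
    (hk : k ∈ KK w y ρ T Y M0) (hk' : k' ∈ KK w y ρ T Y M0) (hg : GK w y Y k) (hg' : GK w y Y k')
    (h : gg k = gg k') : k = k' := by
  obtain ⟨M, m, x, t⟩ := k
  obtain ⟨M', m', x', t'⟩ := k'
  obtain ⟨⟨h1, -⟩, h3, h4, h5⟩ := mem_KK.1 hk
  obtain ⟨⟨h1', -⟩, h3', h4', h5'⟩ := mem_KK.1 hk'
  obtain ⟨r1, r2, -⟩ := hg
  obtain ⟨r1', r2', -⟩ := hg'
  simp only at h1 h3 h4 h5 h1' h3' h4' h5' r1 r2 r1' r2'
  have e1 : m * x = m' * x' := congrArg Prod.fst h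
  have e2 : M / m * t = M' / m' * t' := congrArg Prod.snd h
  have hMp := pos_of_dvd_PP h1
  have hMp' := pos_of_dvd_PP h1'
  have hmp : 0 < m := Nat.pos_of_dvd_of_pos h3 hMp
  have hmp' : 0 < m' := Nat.pos_of_dvd_of_pos h3' hMp'
  have em : m = m' := by
    have a1 := pp_mul (w := w) (y := y) (h3.trans h1) (z := x) (by omega) r1
    have a2 := pp_mul (w := w) (y := y) (h3'.trans h1') (z := x') (by omega) r1'
    rw [← a1, ← a2, e1]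
  subst em
  have ex : x = x' := Nat.eq_of_mul_eq_mul_left hmp e1
  subst ex
  have ec : M / m = M' / m := by
    have b1 : M / m ∣ PP w y := (Nat.div_dvd_of_dvd h3).trans h1
    have b2 : M' / m ∣ PP w y := (Nat.div_dvd_of_dvd h3').trans h1'
    have a1 := pp_mul (w := w) (y := y) b1 (z := t) (by omega) r2
    have a2 := pp_mul (w := w) (y := y) b2 (z := t') (by omega) r2'
    rw [← a1, ← a2, e2]
  have eM : M = M' := by
    rw [← Nat.mul_div_cancel' h3, ← Nat.mul_div_cancel' h3', ec]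
  subst eM
  have et : t = t' := Nat.eq_of_mul_eq_mul_left
    (Nat.div_pos (Nat.le_of_dvd hMp h3) hmp) e2
  subst et
  rfl

theorem rg_quot {w y u v : ℕ} (hu : u ≠ 0) (hv : v ≠ 0)
    (hsq : ∀ p : ℕ, p.Prime → w < p → p ≤ y → ¬ p ^ 2 ∣ u * v) {n : ℕ}
    (hn : pp w y (u * v) * n ∣ u * v) : Rg w y (n : ℤ) := by
  rw [rg_nat]
  intro p hp h1 h2 hd
  have h3 : p ∣ u * v := (hd.mul_left _).trans hn
  have h4 := prime_dvd_pp (mul_ne_zero hu hv) hp h1 h2 h3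
  apply hsq p hp h1 h2
  rw [pow_two]
  exact (mul_dvd_mul h4 hd).trans hn

/-- the pairs that are not bad are in the image -/
theorem gg_surj {T Y w y M0 : ℕ} {ρ : ℝ} (hρ : 1 < ρ) {u v : ℕ} (hu : 1 ≤ u) (hv : 1 ≤ v)
    (hvY : v ≤ Y) (hb : ¬ Bad T w y M0 ρ u v) :
    ∃ k ∈ KK w y ρ T Y M0, GK w y Y k ∧ gg k = (u, v) := by
  unfold Bad at hb
  push Not at hb
  obtain ⟨hsq, hM0, hT⟩ := hb
  have hu0 : u ≠ 0 := by omega
  have hv0 : v ≠ 0 := by omega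
  have hM : pp w y (u * v) ∣ PP w y := pp_dvd_PP _ _ _
  have hm : pp w y u ∣ pp w y (u * v) := pp_mono_dvd hu0 hv0
  obtain ⟨x, hx⟩ := pp_dvd w y u
  obtain ⟨t, ht⟩ := cof_dvd (w := w) (y := y) hu0 hv0
  have hMm : pp w y u * (pp w y (u * v) / pp w y u) = pp w y (u * v) := Nat.mul_div_cancel' hm
  have huv : u * v = pp w y (u * v) * (x * t) := by
    calc u * v = (pp w y u * x) * (pp w y (u * v) / pp w y u * t) := by rw [← hx, ← ht]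
      _ = (pp w y u * (pp w y (u * v) / pp w y u)) * (x * t) := by ring
      _ = _ := by rw [hMm]
  have hx1 : 1 ≤ x := Nat.one_le_iff_ne_zero.2 fun h => hu0 (by rw [hx, h, mul_zero])
  have ht1 : 1 ≤ t := Nat.one_le_iff_ne_zero.2 fun h => hv0 (by rw [ht, h, mul_zero])
  have rx : Rg w y (x : ℤ) := rg_quot hu0 hv0 hsq (n := x) ⟨t, by rw [mul_assoc]; exact huv⟩
  have rt : Rg w y (t : ℤ) := rg_quot hu0 hv0 hsq (n := t) ⟨x, by rw [mul_assoc, mul_comm t x]; exact huv⟩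
  have hmp := pp_pos w y u
  have hMp := pp_pos w y (u * v)
  have hρ0 : (0 : ℝ) < ρ := by linarith
  have hj1 := jw_le hρ hmp
  have hj2 := lt_jw hρ hmp
  have hpw : (0 : ℝ) < ρ ^ (jw ρ (pp w y u) + 1) := by positivity
  refine ⟨⟨pp w y (u * v), pp w y u, x, t⟩, mem_KK.2 ⟨⟨hM, hM0⟩, hm, ⟨hx1, ?_⟩, ht1, ?_⟩,
    ⟨rx, rt, ?_⟩, ?_⟩
  · apply Nat.le_floor
    rw [le_div_iff₀ hpw]
    have hxr : (u : ℝ) = (pp w y u : ℝ) * x := by exact_mod_cast hx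
    calc (x : ℝ) * ρ ^ (jw ρ (pp w y u) + 1) = ρ * (x * ρ ^ (jw ρ (pp w y u))) := by ring
      _ ≤ ρ * (x * (pp w y u : ℝ)) := by gcongr
      _ = ρ * u := by rw [hxr]; ring
      _ ≤ T := hT
  · apply Nat.le_floor
    have hMr : (0 : ℝ) < (pp w y (u * v) : ℝ) := by exact_mod_cast hMp
    simp only
    rw [le_div_iff₀ hMr]
    have hMmr : (pp w y (u * v) : ℝ) = (pp w y u : ℝ) * ((pp w y (u * v) / pp w y u : ℕ) : ℝ) := by
      exact_mod_cast hMm.symm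
    have htr : (v : ℝ) = ((pp w y (u * v) / pp w y u : ℕ) : ℝ) * t := by exact_mod_cast ht
    have hvr : (v : ℝ) ≤ Y := by exact_mod_cast hvY
    calc (t : ℝ) * (pp w y (u * v) : ℝ) = (pp w y u : ℝ) * v := by rw [hMmr, htr]; ring
      _ ≤ ρ ^ (jw ρ (pp w y u) + 1) * Y := by gcongr
      _ = _ := mul_comm _ _
  · simp only
    rw [← ht]
    exact hvY
  · unfold gg
    simp only
    rw [← hx, ← ht]

open Classical in
theorem claim2 (T Y w y M0 : ℕ) (ρ : ℝ) (φ : ℕ → ℕ → ℝ) (E N : ℕ → ℝ) (hρ : 1 < ρ)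
    (hφ : ∀ u v, |φ u v| ≤ 1) (hφ0 : ∀ u v, u ≤ T → Y < v → φ u v = 0) (hE : ∀ n, |E n| ≤ N n) :
    |∑ u ∈ Icc 1 T, ∑ v ∈ Icc 1 Y, φ u v * E (u * v) - SS φ E w y ρ T Y M0| ≤
    ∑ u ∈ Icc 1 T, ∑ v ∈ Icc 1 Y, (if Bad T w y M0 ρ u v then N (u * v) else 0) := by
  have hN : ∀ n, 0 ≤ N n := fun n => (abs_nonneg _).trans (hE n)
  have hinj : Set.InjOn gg (((KK w y ρ T Y M0).filter (GK w y Y) : Finset _) : Set
      (Σ _ : ℕ, Σ _ : ℕ, ℕ × ℕ)) := by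
    intro k hk k' hk' h
    rw [Finset.mem_coe, Finset.mem_filter] at hk hk'
    exact gg_inj hk.1 hk'.1 hk.2 hk'.2 h
  have hsub : ((KK w y ρ T Y M0).filter (GK w y Y)).image gg ⊆ Icc 1 T ×ˢ Icc 1 Y := by
    intro p hp
    obtain ⟨k, hk, rfl⟩ := Finset.mem_image.1 hp
    obtain ⟨hk1, hk2⟩ := Finset.mem_filter.1 hk
    obtain ⟨⟨h1, -⟩, h3, h4, h5⟩ := mem_KK.1 hk1
    have hMp := pos_of_dvd_PP h1
    have hmp : 0 < k.2.1 := Nat.pos_of_dvd_of_pos h3 hMp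
    have hcp : 0 < k.1 / k.2.1 := Nat.div_pos (Nat.le_of_dvd hMp h3) hmp
    unfold gg
    rw [Finset.mem_product, Finset.mem_Icc, Finset.mem_Icc]
    refine ⟨⟨?_, mx_le hρ hmp h4.2⟩, ?_, hk2.2.2⟩
    · exact Nat.mul_pos hmp h4.1
    · exact Nat.mul_pos hcp h5.1
  have e1 : SS φ E w y ρ T Y M0 =
      ∑ p ∈ ((KK w y ρ T Y M0).filter (GK w y Y)).image gg, φ p.1 p.2 * E (p.1 * p.2) := by
    rw [SS_flat, Finset.sum_image hinj, Finset.sum_filter]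
    refine Finset.sum_congr rfl fun k hk => ?_
    obtain ⟨⟨h1, -⟩, h3, h4, h5⟩ := mem_KK.1 hk
    have hMp := pos_of_dvd_PP h1
    have hmp : 0 < k.2.1 := Nat.pos_of_dvd_of_pos h3 hMp
    unfold FF gg
    simp only
    rw [gg_mul h3]
    by_cases hg : GK w y Y k
    · rw [if_pos hg]
      unfold rg
      rw [if_pos hg.1, if_pos hg.2.1]
      ring
    · rw [if_neg hg]
      by_cases r1 : Rg w y (k.2.2.1 : ℤ)
      · by_cases r2 : Rg w y (k.2.2.2 : ℤ)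
        · have h6 : Y < k.1 / k.2.1 * k.2.2.2 := by
            by_contra h7
            exact hg ⟨r1, r2, not_lt.1 h7⟩
          rw [hφ0 _ _ (mx_le hρ hmp h4.2) h6]
          ring
        · unfold rg
          rw [if_neg r2]
          ring
      · unfold rg
        rw [if_neg r1]
        ring
  have e2 : ∑ u ∈ Icc 1 T, ∑ v ∈ Icc 1 Y, φ u v * E (u * v) =
      ∑ p ∈ Icc 1 T ×ˢ Icc 1 Y, φ p.1 p.2 * E (p.1 * p.2) := by
    rw [Finset.sum_product]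
  have e3 : ∑ u ∈ Icc 1 T, ∑ v ∈ Icc 1 Y, (if Bad T w y M0 ρ u v then N (u * v) else 0) =
      ∑ p ∈ Icc 1 T ×ˢ Icc 1 Y, (if Bad T w y M0 ρ p.1 p.2 then N (p.1 * p.2) else 0) := by
    rw [Finset.sum_product]
  rw [e1, e2, e3, ← Finset.sum_sdiff hsub, add_sub_cancel_right]
  refine (Finset.abs_sum_le_sum_abs _ _).trans ?_
  refine le_trans (Finset.sum_le_sum (g := fun p : ℕ × ℕ =>
    (if Bad T w y M0 ρ p.1 p.2 then N (p.1 * p.2) else 0)) ?_) ?_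
  · intro p hp
    obtain ⟨hp1, hp2⟩ := Finset.mem_sdiff.1 hp
    rw [Finset.mem_product, Finset.mem_Icc, Finset.mem_Icc] at hp1
    have hb : Bad T w y M0 ρ p.1 p.2 := by
      by_contra hb
      obtain ⟨k, hk, hg, he⟩ := gg_surj hρ hp1.1.1 hp1.2.1 hp1.2.2 hb
      exact hp2 (Finset.mem_image.2 ⟨k, Finset.mem_filter.2 ⟨hk, hg⟩, by rw [he]⟩)
    rw [if_pos hb, abs_mul]
    calc |φ p.1 p.2| * |E (p.1 * p.2)| ≤ 1 * N (p.1 * p.2) :=
          mul_le_mul (hφ _ _) (hE _) (abs_nonneg _) zero_le_one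
      _ = _ := one_mul _
  · rw [Finset.sum_sdiff_eq_sub hsub]
    have h0 : 0 ≤ ∑ x ∈ ((KK w y ρ T Y M0).filter (GK w y Y)).image gg,
        (if Bad T w y M0 ρ x.1 x.2 then N (x.1 * x.2) else 0) := by
      refine Finset.sum_nonneg fun p _ => ?_
      split_ifs
      · exact hN _
      · exact le_rfl
    linarith

theorem t_ORB : S_ORB := by
  intro T Y w y M0 ρ φ E N hρ hφ hφ0 hE
  have h1 := claim1 T Y w y M0 ρ φ E N hE
  have h2 := claim2 T Y w y M0 ρ φ E N hρ hφ hφ0 hE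
  have h3 := abs_add_le (∑ u ∈ Icc 1 T, ∑ v ∈ Icc 1 Y, φ u v * E (u * v) - SS φ E w y ρ T Y M0)
    (SS φ E w y ρ T Y M0)
  rw [sub_add_cancel] at h3
  exact h3.trans (add_le_add h2 h1)

end

end Pool.Agent.N426.QL
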